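import Mathlib
import Pool.Agent.H548.LU.Defs

/-!
Project LU (MP_1da87e_co), part A: `StmtBits` (random bits, abstract averaging lemma).
-/

namespace Pool.Agent.R608.LU

open Finset Classical

set_option autoImplicit false

section A

variable {Ad : Type} [Fintype Ad]

/-- at least the fraction `2 ^ (-t)` of all assignments makes `t` non-conflicting literals false -/
lemma card_good (L : Finset (Ad × Bool)) (t : ℕ) (hL : L.card ≤ t)
    (hc : ∀ w, ¬ ((w, true) ∈ L ∧ (w, false) ∈ L)) :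
    Fintype.card (Ad → Bool) ≤
      2 ^ t * ((univ : Finset (Ad → Bool)).filter fun b => ∀ p ∈ L, b p.1 ≠ p.2).card := by
  classical
  let fix : (Ad → Bool) → (Ad → Bool) := fun b w =>
    if (w, true) ∈ L then false else if (w, false) ∈ L then true else b w
  have hfix : ∀ b, fix b ∈ ((univ : Finset (Ad → Bool)).filter fun b => ∀ p ∈ L, b p.1 ≠ p.2) := by
    intro b
    simp only [mem_filter, mem_univ, true_and]
    rintro ⟨w, c⟩ hp
    cases c
    · have : (w, true) ∉ L := fun h => hc w ⟨h, hp⟩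
      simp [fix, this, hp]
    · simp [fix, hp]
  let F : (Ad → Bool) →
      (((univ : Finset (Ad → Bool)).filter fun b => ∀ p ∈ L, b p.1 ≠ p.2) : Finset _) × (L → Bool) :=
    fun b => (⟨fix b, hfix b⟩, fun p => b p.1.1)
  have hF : Function.Injective F := by
    intro b b' h
    have h1 : fix b = fix b' := by
      have := congrArg (fun z => (z.1 : Ad → Bool)) h
      exact this
    have h2 : ∀ p : L, b p.1.1 = b' p.1.1 := fun p => congrFun (congrArg Prod.snd h) p
    funext w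
    by_cases ht : (w, true) ∈ L
    · exact h2 ⟨_, ht⟩
    by_cases hf : (w, false) ∈ L
    · exact h2 ⟨_, hf⟩
    have := congrFun h1 w
    simpa [fix, ht, hf] using this
  have h1 := Fintype.card_le_of_injective F hF
  have h2 : Fintype.card (L → Bool) = 2 ^ L.card := by
    rw [Fintype.card_fun, Fintype.card_coe, Fintype.card_bool]
  rw [Fintype.card_prod, Fintype.card_coe, h2] at h1
  calc Fintype.card (Ad → Bool) ≤ _ := h1
    _ ≤ ((univ : Finset (Ad → Bool)).filter fun b => ∀ p ∈ L, b p.1 ≠ p.2).card * 2 ^ t :=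
        Nat.mul_le_mul_left _ (Nat.pow_le_pow_right (by norm_num) hL)
    _ = _ := mul_comm _ _

/-- the sum of the weights at one element -/
lemma sum_one (L : Finset (Ad × Bool)) (t : ℕ) (hL : L.card ≤ t)
    (hc : ∀ w, ¬ ((w, true) ∈ L ∧ (w, false) ∈ L)) :
    ∑ b : Ad → Bool, (if ∀ p ∈ L, b p.1 ≠ p.2 then (1 / 2 : ℝ) else 1) ≤
      (Fintype.card (Ad → Bool) : ℝ) * (1 - (1 / 2 : ℝ) ^ (t + 1)) := by
  have h0 := card_good L t hL hc
  have h1 : ∑ b : Ad → Bool, (if ∀ p ∈ L, b p.1 ≠ p.2 then (1 / 2 : ℝ) else 1) =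
      (Fintype.card (Ad → Bool) : ℝ) -
        (1 / 2) * ((univ : Finset (Ad → Bool)).filter fun b => ∀ p ∈ L, b p.1 ≠ p.2).card := by
    have h2 : ∀ b : Ad → Bool, (if ∀ p ∈ L, b p.1 ≠ p.2 then (1 / 2 : ℝ) else 1) =
        1 - (1 / 2) * (if ∀ p ∈ L, b p.1 ≠ p.2 then (1 : ℝ) else 0) := by
      intro b; split_ifs <;> norm_num
    rw [Finset.sum_congr rfl fun b _ => h2 b, Finset.sum_sub_distrib, ← Finset.mul_sum,
      Finset.sum_boole]
    simp
  rw [h1]
  have h3 : (Fintype.card (Ad → Bool) : ℝ) ≤ 2 ^ t *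
      (((univ : Finset (Ad → Bool)).filter fun b => ∀ p ∈ L, b p.1 ≠ p.2).card : ℝ) := by
    exact_mod_cast h0
  have h4 : (Fintype.card (Ad → Bool) : ℝ) * (1 / 2 : ℝ) ^ t ≤
      (((univ : Finset (Ad → Bool)).filter fun b => ∀ p ∈ L, b p.1 ≠ p.2).card : ℝ) := by
    rw [one_div, inv_pow, ← div_eq_mul_inv, div_le_iff₀ (by positivity)]
    linarith
  have h5 : (1 / 2 : ℝ) ^ (t + 1) = (1 / 2) * (1 / 2 : ℝ) ^ t := by rw [pow_succ]; ring
  rw [h5]
  nlinarith

end A

theorem stmtBits : Pool.Agent.H548.LU.StmtBits := by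
  intro Ad E ι _ _ _ ED Lit s t hcard hconf hsum
  by_contra hno
  push Not at hno
  -- weights
  let S : ι → (E → Ad → Bool) → ℕ := fun i β =>
    ((ED i).filter fun e => ∀ p ∈ Lit i e, β e p.1 ≠ p.2).card
  have hbad : ∀ β : E → Ad → Bool, ∃ i, S i β < s i := by
    intro β
    obtain ⟨i, hi⟩ := hno (fun w e => β e w)
    exact ⟨i, hi⟩
  have hone : ∀ β : E → Ad → Bool, (1 : ℝ) ≤ ∑ i, (2 : ℝ) ^ (s i) * (1 / 2 : ℝ) ^ (S i β) := by
    intro β
    obtain ⟨i, hi⟩ := hbad β
    have h1 : (1 : ℝ) ≤ (2 : ℝ) ^ (s i) * (1 / 2 : ℝ) ^ (S i β) := by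
      rw [one_div, inv_pow, ← div_eq_mul_inv, le_div_iff₀ (by positivity), one_mul]
      exact pow_le_pow_right₀ (by norm_num) hi.le
    refine h1.trans (Finset.single_le_sum (f := fun i => (2 : ℝ) ^ (s i) * (1 / 2 : ℝ) ^ (S i β))
      (fun j _ => by positivity) (Finset.mem_univ i))
  -- the average for one index
  have havg : ∀ i, ∑ β : E → Ad → Bool, (1 / 2 : ℝ) ^ (S i β) ≤
      (Fintype.card (E → Ad → Bool) : ℝ) * (1 - (1 / 2 : ℝ) ^ (t i + 1)) ^ ((ED i).card) := by
    intro i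
    let g : E → (Ad → Bool) → ℝ := fun e b =>
      if e ∈ ED i then (if ∀ p ∈ Lit i e, b p.1 ≠ p.2 then (1 / 2 : ℝ) else 1) else 1
    have h1 : ∀ β : E → Ad → Bool, (1 / 2 : ℝ) ^ (S i β) = ∏ e, g e (β e) := by
      intro β
      simp only [g]
      rw [Finset.prod_ite_mem, Finset.univ_inter, Finset.prod_ite]
      simp [S]
    have h2 : ∑ β : E → Ad → Bool, ∏ e, g e (β e) = ∏ e, ∑ b : Ad → Bool, g e b := by
      rw [Finset.prod_univ_sum, Fintype.piFinset_univ]
    rw [Finset.sum_congr rfl fun β _ => h1 β, h2]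
    have h3 : ∀ e, ∑ b : Ad → Bool, g e b ≤ (Fintype.card (Ad → Bool) : ℝ) *
        (if e ∈ ED i then (1 - (1 / 2 : ℝ) ^ (t i + 1)) else 1) := by
      intro e
      by_cases he : e ∈ ED i
      · simp only [g, he, if_true]
        exact sum_one (Lit i e) (t i) (hcard i e) (hconf i e)
      · simp [g, he]
    calc ∏ e, ∑ b : Ad → Bool, g e b ≤ ∏ e, ((Fintype.card (Ad → Bool) : ℝ) *
          (if e ∈ ED i then (1 - (1 / 2 : ℝ) ^ (t i + 1)) else 1)) := by
          refine Finset.prod_le_prod (fun e _ => ?_) (fun e _ => h3 e)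
          refine Finset.sum_nonneg fun b _ => ?_
          simp only [g]
          split_ifs <;> norm_num
      _ = _ := by
          rw [Finset.prod_mul_distrib, Finset.prod_ite_mem, Finset.univ_inter, Finset.prod_const,
            Finset.prod_const, Finset.card_univ]
          congr 1
          rw [← Nat.cast_pow]
          congr 1
          rw [Fintype.card_fun (α := E) (β := Ad → Bool)]
  have hpos : (0 : ℝ) < (Fintype.card (E → Ad → Bool) : ℝ) := by
    have : 0 < Fintype.card (E → Ad → Bool) := Fintype.card_pos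
    exact_mod_cast this
  have hfin : (Fintype.card (E → Ad → Bool) : ℝ) ≤
      (Fintype.card (E → Ad → Bool) : ℝ) *
        ∑ i, (2 : ℝ) ^ (s i) * (1 - (1 / 2 : ℝ) ^ (t i + 1)) ^ ((ED i).card) := by
    calc (Fintype.card (E → Ad → Bool) : ℝ) = ∑ _β : E → Ad → Bool, (1 : ℝ) := by simp
      _ ≤ ∑ β : E → Ad → Bool, ∑ i, (2 : ℝ) ^ (s i) * (1 / 2 : ℝ) ^ (S i β) :=
          Finset.sum_le_sum fun β _ => hone β
      _ = ∑ i, (2 : ℝ) ^ (s i) * ∑ β : E → Ad → Bool, (1 / 2 : ℝ) ^ (S i β) := by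
          rw [Finset.sum_comm]
          exact Finset.sum_congr rfl fun i _ => by rw [Finset.mul_sum]
      _ ≤ ∑ i, (2 : ℝ) ^ (s i) * ((Fintype.card (E → Ad → Bool) : ℝ) *
            (1 - (1 / 2 : ℝ) ^ (t i + 1)) ^ ((ED i).card)) :=
          Finset.sum_le_sum fun i _ => mul_le_mul_of_nonneg_left (havg i) (by positivity)
      _ = _ := by
          rw [Finset.mul_sum]
          exact Finset.sum_congr rfl fun i _ => by ring
  nlinarith

end Pool.Agent.R608.LU
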