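import Mathlib
import Pool.Agent.H548.LU.Defs

/-!
Project LU (MP_1da87e_co), part B: `StmtRnd` (random edge set, abstract union bound).
-/

namespace Pool.Agent.R608.LU

open Finset Classical

set_option autoImplicit false

/-- a map without fixed points that is injective on `S` has a colouring with three colours -/
lemma exists_colour {E : Type} (f : E → E) (S : Finset E) (hinj : Set.InjOn f (S : Set E))
    (hfix : ∀ e ∈ S, f e ≠ e) : ∃ c : E → Fin 3, ∀ e ∈ S, c e ≠ c (f e) := by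
  classical
  induction S using Finset.induction_on with
  | empty => exact ⟨fun _ => 0, by simp⟩
  | insert x S hx ih =>
    obtain ⟨c, hc⟩ := ih (hinj.mono (by simp)) (fun e he => hfix e (mem_insert_of_mem he))
    have h3 : ∀ a b : Fin 3, ∃ g : Fin 3, g ≠ a ∧ g ≠ b := by decide
    by_cases hy : ∃ y ∈ S, f y = x
    · obtain ⟨y, hyS, hyx⟩ := hy
      obtain ⟨g, hg1, hg2⟩ := h3 (c (f x)) (c y)
      refine ⟨Function.update c x g, fun e he => ?_⟩
      rcases mem_insert.1 he with rfl | he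
      · rw [Function.update_self, Function.update_of_ne (hfix _ (mem_insert_self _ _))]
        exact hg1
      · have hex : e ≠ x := fun h => hx (h ▸ he)
        rw [Function.update_of_ne hex]
        by_cases hfe : f e = x
        · have : e = y := hinj (by simp [he]) (by simp [hyS]) (hfe.trans hyx.symm)
          rw [hfe, Function.update_self, this]
          exact hg2.symm
        · rw [Function.update_of_ne hfe]
          exact hc e he
    · push Not at hy
      obtain ⟨g, hg1, -⟩ := h3 (c (f x)) 0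
      refine ⟨Function.update c x g, fun e he => ?_⟩
      rcases mem_insert.1 he with rfl | he
      · rw [Function.update_self, Function.update_of_ne (hfix _ (mem_insert_self _ _))]
        exact hg1
      · have hex : e ≠ x := fun h => hx (h ▸ he)
        rw [Function.update_of_ne hex, Function.update_of_ne (hy e he)]
        exact hc e he

section avg

variable {E : Type} [Fintype E] {q : ℕ}

/-- the set `X` of the elements with value `0` -/
def zs (hq : 0 < q) (ξ : E → Fin q) : Finset E := univ.filter fun e => ξ e = ⟨0, hq⟩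

lemma mem_zs (hq : 0 < q) (ξ : E → Fin q) (e : E) : e ∈ zs hq ξ ↔ ξ e = ⟨0, hq⟩ := by
  simp [zs]

/-- the sum of a product of weights -/
lemma sum_weight (hq : 0 < q) (T : Finset E) (x : ℝ) :
    ∑ ξ : E → Fin q, x ^ (T.filter fun e => e ∈ zs hq ξ).card =
      (q : ℝ) ^ Fintype.card E * (1 + (x - 1) / q) ^ T.card := by
  let g : E → Fin q → ℝ := fun e j => if e ∈ T then (if j = ⟨0, hq⟩ then x else 1) else 1
  have h1 : ∀ ξ : E → Fin q, x ^ (T.filter fun e => e ∈ zs hq ξ).card = ∏ e, g e (ξ e) := by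
    intro ξ
    simp only [g]
    rw [Finset.prod_ite_mem, Finset.univ_inter, Finset.prod_ite]
    simp [mem_zs]
  have h2 : ∑ ξ : E → Fin q, ∏ e, g e (ξ e) = ∏ e, ∑ j : Fin q, g e j := by
    rw [Finset.prod_univ_sum, Fintype.piFinset_univ]
  have hq' : (q : ℝ) ≠ 0 := by positivity
  have h3 : ∀ e, ∑ j : Fin q, g e j = (q : ℝ) * (if e ∈ T then (1 + (x - 1) / q) else 1) := by
    intro e
    by_cases he : e ∈ T
    · simp only [g, he, if_true]
      have h4 : ∀ j : Fin q, (if j = (⟨0, hq⟩ : Fin q) then x else 1) =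
          1 + (if j = (⟨0, hq⟩ : Fin q) then x - 1 else 0) := by
        intro j; split_ifs <;> ring
      rw [Finset.sum_congr rfl fun j _ => h4 j, Finset.sum_add_distrib, Finset.sum_ite_eq']
      simp
      field_simp
    · simp [g, he]
  rw [Finset.sum_congr rfl fun ξ _ => h1 ξ, h2, Finset.prod_congr rfl fun e _ => h3 e,
    Finset.prod_mul_distrib, Finset.prod_ite_mem, Finset.univ_inter, Finset.prod_const,
    Finset.prod_const, Finset.card_univ]

/-- the number of the maps that are `0` on `T` -/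
lemma sum_sub (hq : 0 < q) (T : Finset E) :
    ∑ ξ : E → Fin q, (if T ⊆ zs hq ξ then (1 : ℝ) else 0) =
      (q : ℝ) ^ Fintype.card E * (1 / (q : ℝ)) ^ T.card := by
  let g : E → Fin q → ℝ := fun e j => if e ∈ T then (if j = ⟨0, hq⟩ then 1 else 0) else 1
  have h1 : ∀ ξ : E → Fin q, (if T ⊆ zs hq ξ then (1 : ℝ) else 0) = ∏ e, g e (ξ e) := by
    intro ξ
    simp only [g]
    rw [Finset.prod_ite_mem, Finset.univ_inter]
    split_ifs with h
    · symm
      refine Finset.prod_eq_one fun e he => ?_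
      rw [if_pos ((mem_zs hq ξ e).1 (h he))]
    · rw [Finset.not_subset] at h
      obtain ⟨e, he, h'⟩ := h
      symm
      refine Finset.prod_eq_zero he ?_
      rw [if_neg fun h0 => h' ((mem_zs hq ξ e).2 h0)]
  have h2 : ∑ ξ : E → Fin q, ∏ e, g e (ξ e) = ∏ e, ∑ j : Fin q, g e j := by
    rw [Finset.prod_univ_sum, Fintype.piFinset_univ]
  have hq' : (q : ℝ) ≠ 0 := by positivity
  have h3 : ∀ e, ∑ j : Fin q, g e j = (q : ℝ) * (if e ∈ T then (1 / (q : ℝ)) else 1) := by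
    intro e
    by_cases he : e ∈ T
    · simp only [g, he, if_true]
      rw [Finset.sum_ite_eq']
      simp
      field_simp
    · simp [g, he]
  rw [Finset.sum_congr rfl fun ξ _ => h1 ξ, h2, Finset.prod_congr rfl fun e _ => h3 e,
    Finset.prod_mul_distrib, Finset.prod_ite_mem, Finset.univ_inter, Finset.prod_const,
    Finset.prod_const, Finset.card_univ]

/-- pairs: the sum over a colour class -/
lemma sum_pairs (hq : 0 < q) (f : E → E) (S : Finset E) (hinj : Set.InjOn f (S : Set E))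
    (hdis : ∀ e ∈ S, ∀ e' ∈ S, f e ≠ e') :
    ∑ ξ : E → Fin q, (2 : ℝ) ^ (S.filter fun e => e ∈ zs hq ξ ∧ f e ∈ zs hq ξ).card =
      (q : ℝ) ^ Fintype.card E * (1 + 1 / (q : ℝ) ^ 2) ^ S.card := by
  have h1 : ∀ ξ : E → Fin q,
      (2 : ℝ) ^ (S.filter fun e => e ∈ zs hq ξ ∧ f e ∈ zs hq ξ).card =
      ∑ R ∈ S.powerset, (if R ∪ R.image f ⊆ zs hq ξ then (1 : ℝ) else 0) := by
    intro ξ
    have h2 : (2 : ℝ) ^ (S.filter fun e => e ∈ zs hq ξ ∧ f e ∈ zs hq ξ).card =
        ∏ e ∈ S, (1 + if e ∈ zs hq ξ ∧ f e ∈ zs hq ξ then (1 : ℝ) else 0) := by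
      have h3 : ∀ e, (1 + if e ∈ zs hq ξ ∧ f e ∈ zs hq ξ then (1 : ℝ) else 0) =
          if e ∈ zs hq ξ ∧ f e ∈ zs hq ξ then (2 : ℝ) else 1 := by
        intro e; split_ifs <;> norm_num
      rw [Finset.prod_congr rfl fun e _ => h3 e, Finset.prod_ite]
      simp
    rw [h2, Finset.prod_one_add]
    refine Finset.sum_congr rfl fun R _ => ?_
    split_ifs with h
    · refine Finset.prod_eq_one fun e he => ?_
      rw [if_pos ⟨h (mem_union_left _ he), h (mem_union_right _ (mem_image_of_mem _ he))⟩]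
    · rw [Finset.not_subset] at h
      obtain ⟨e, he, h'⟩ := h
      rcases mem_union.1 he with he | he
      · refine Finset.prod_eq_zero he ?_
        rw [if_neg fun h0 => h' h0.1]
      · obtain ⟨e', he', rfl⟩ := mem_image.1 he
        refine Finset.prod_eq_zero he' ?_
        rw [if_neg fun h0 => h' h0.2]
  rw [Finset.sum_congr rfl fun ξ _ => h1 ξ, Finset.sum_comm]
  have h2 : ∀ R ∈ S.powerset, ∑ ξ : E → Fin q, (if R ∪ R.image f ⊆ zs hq ξ then (1 : ℝ) else 0) =
      (q : ℝ) ^ Fintype.card E * (1 / (q : ℝ) ^ 2) ^ R.card := by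
    intro R hR
    rw [mem_powerset] at hR
    have hd : Disjoint R (R.image f) := by
      rw [Finset.disjoint_left]
      intro e he he'
      obtain ⟨e', he'', h⟩ := mem_image.1 he'
      exact hdis e' (hR he'') e (hR he) h
    rw [sum_sub, Finset.card_union_of_disjoint hd, Finset.card_image_of_injOn
      (hinj.mono (by exact_mod_cast hR)), ← two_mul, pow_mul]
    congr 3
    rw [one_div, one_div, inv_pow]
  rw [Finset.sum_congr rfl h2, ← Finset.mul_sum]
  congr 1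
  have h3 := Finset.prod_one_add (s := S) (f := fun _ => (1 / (q : ℝ) ^ 2))
  rw [Finset.prod_const] at h3
  rw [h3]
  refine Finset.sum_congr rfl fun R _ => ?_
  rw [Finset.prod_const]

end avg

theorem stmtRnd : Pool.Agent.H548.LU.StmtRnd := by
  intro E ιP ιU ιA ιL _ _ _ _ _ q hq SP f sP TU sU TA TL sL hinj hfix hsum
  choose c hc using fun i => exists_colour (f i) (SP i) (hinj i) (hfix i)
  -- the colour classes
  let SC : ιP → Fin 3 → Finset E := fun i k => (SP i).filter fun e => c i e = k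
  let cP : (E → Fin q) → ιP → Fin 3 → ℕ := fun ξ i k =>
    ((SC i k).filter fun e => e ∈ zs hq ξ ∧ f i e ∈ zs hq ξ).card
  let cU : (E → Fin q) → ιU → ℕ := fun ξ i => ((TU i).filter fun e => e ∈ zs hq ξ).card
  let cL : (E → Fin q) → ιL → ℕ := fun ξ i => ((TL i).filter fun e => e ∈ zs hq ξ).card
  let Φ : (E → Fin q) → ℝ := fun ξ =>
    (∑ i, ∑ k, (1 / 2 : ℝ) ^ (sP i) * (2 : ℝ) ^ (cP ξ i k)) +
    (∑ i, (1 / 2 : ℝ) ^ (sU i) * (2 : ℝ) ^ (cU ξ i)) +
    (∑ i, (if TA i ⊆ zs hq ξ then (1 : ℝ) else 0)) +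
    (∑ i, (2 : ℝ) ^ (sL i) * (1 / 2 : ℝ) ^ (cL ξ i))
  have hq0 : (0 : ℝ) < (q : ℝ) := by positivity
  have hN : (0 : ℝ) < (q : ℝ) ^ Fintype.card E := by positivity
  -- the average
  have hP : ∀ i k, ∑ ξ : E → Fin q, (2 : ℝ) ^ (cP ξ i k) ≤
      (q : ℝ) ^ Fintype.card E * (1 + 1 / (q : ℝ) ^ 2) ^ (SP i).card := by
    intro i k
    have h1 := sum_pairs hq (f i) (SC i k)
      ((hinj i).mono (by intro e he; exact (mem_filter.1 he).1)) (by
        intro e he e' he' h
        have h2 := (mem_filter.1 he).2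
        have h3 := (mem_filter.1 he').2
        apply hc i e (mem_filter.1 he).1
        rw [h, h2, h3])
    simp only [cP]
    rw [h1]
    refine mul_le_mul_of_nonneg_left ?_ hN.le
    refine pow_le_pow_right₀ ?_ (Finset.card_le_card (Finset.filter_subset _ _))
    have : (0 : ℝ) ≤ 1 / (q : ℝ) ^ 2 := by positivity
    linarith
  have hU : ∀ i, ∑ ξ : E → Fin q, (2 : ℝ) ^ (cU ξ i) =
      (q : ℝ) ^ Fintype.card E * (1 + 1 / (q : ℝ)) ^ (TU i).card := by
    intro i
    simp only [cU]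
    rw [sum_weight hq (TU i) 2]
    norm_num
  have hL : ∀ i, ∑ ξ : E → Fin q, (1 / 2 : ℝ) ^ (cL ξ i) =
      (q : ℝ) ^ Fintype.card E * (1 - 1 / (2 * (q : ℝ))) ^ (TL i).card := by
    intro i
    simp only [cL]
    rw [sum_weight hq (TL i) (1 / 2)]
    congr 2
    field_simp
    ring
  have hsumΦ : ∑ ξ : E → Fin q, Φ ξ < (q : ℝ) ^ Fintype.card E := by
    have h1 : ∑ ξ : E → Fin q, Φ ξ =
        (∑ i, ∑ k, (1 / 2 : ℝ) ^ (sP i) * ∑ ξ : E → Fin q, (2 : ℝ) ^ (cP ξ i k)) +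
        (∑ i, (1 / 2 : ℝ) ^ (sU i) * ∑ ξ : E → Fin q, (2 : ℝ) ^ (cU ξ i)) +
        (∑ i, ∑ ξ : E → Fin q, (if TA i ⊆ zs hq ξ then (1 : ℝ) else 0)) +
        (∑ i, (2 : ℝ) ^ (sL i) * ∑ ξ : E → Fin q, (1 / 2 : ℝ) ^ (cL ξ i)) := by
      simp only [Φ]
      rw [Finset.sum_add_distrib, Finset.sum_add_distrib, Finset.sum_add_distrib]
      congr 1
      · congr 1
        · congr 1
          · rw [Finset.sum_comm]
            refine Finset.sum_congr rfl fun i _ => ?_
            rw [Finset.sum_comm]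
            refine Finset.sum_congr rfl fun k _ => ?_
            rw [Finset.mul_sum]
          · rw [Finset.sum_comm]
            refine Finset.sum_congr rfl fun i _ => ?_
            rw [Finset.mul_sum]
        · rw [Finset.sum_comm]
      · rw [Finset.sum_comm]
        refine Finset.sum_congr rfl fun i _ => ?_
        rw [Finset.mul_sum]
    have h2 : ∑ i, ∑ k, (1 / 2 : ℝ) ^ (sP i) * ∑ ξ : E → Fin q, (2 : ℝ) ^ (cP ξ i k) ≤
        (q : ℝ) ^ Fintype.card E *
          ∑ i, 3 * (1 / 2 : ℝ) ^ (sP i) * (1 + 1 / (q : ℝ) ^ 2) ^ ((SP i).card) := by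
      rw [Finset.mul_sum]
      refine Finset.sum_le_sum fun i _ => ?_
      calc ∑ k : Fin 3, (1 / 2 : ℝ) ^ (sP i) * ∑ ξ : E → Fin q, (2 : ℝ) ^ (cP ξ i k) ≤
          ∑ _k : Fin 3, (1 / 2 : ℝ) ^ (sP i) *
            ((q : ℝ) ^ Fintype.card E * (1 + 1 / (q : ℝ) ^ 2) ^ (SP i).card) :=
            Finset.sum_le_sum fun k _ => mul_le_mul_of_nonneg_left (hP i k) (by positivity)
        _ = _ := by
            rw [Finset.sum_const, Finset.card_univ, Fintype.card_fin, nsmul_eq_mul]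
            push_cast
            ring
    have h3 : ∑ i, (1 / 2 : ℝ) ^ (sU i) * ∑ ξ : E → Fin q, (2 : ℝ) ^ (cU ξ i) =
        (q : ℝ) ^ Fintype.card E *
          ∑ i, (1 / 2 : ℝ) ^ (sU i) * (1 + 1 / (q : ℝ)) ^ ((TU i).card) := by
      rw [Finset.mul_sum]
      refine Finset.sum_congr rfl fun i _ => ?_
      rw [hU]; ring
    have h4 : ∑ i, ∑ ξ : E → Fin q, (if TA i ⊆ zs hq ξ then (1 : ℝ) else 0) =
        (q : ℝ) ^ Fintype.card E * ∑ i, (1 / (q : ℝ)) ^ ((TA i).card) := by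
      rw [Finset.mul_sum]
      exact Finset.sum_congr rfl fun i _ => sum_sub hq (TA i)
    have h5 : ∑ i, (2 : ℝ) ^ (sL i) * ∑ ξ : E → Fin q, (1 / 2 : ℝ) ^ (cL ξ i) =
        (q : ℝ) ^ Fintype.card E *
          ∑ i, (2 : ℝ) ^ (sL i) * (1 - 1 / (2 * (q : ℝ))) ^ ((TL i).card) := by
      rw [Finset.mul_sum]
      refine Finset.sum_congr rfl fun i _ => ?_
      rw [hL]; ring
    rw [h1, h3, h4, h5]
    calc _ ≤ (q : ℝ) ^ Fintype.card E *
          (∑ i, 3 * (1 / 2 : ℝ) ^ (sP i) * (1 + 1 / (q : ℝ) ^ 2) ^ ((SP i).card)) +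
          (q : ℝ) ^ Fintype.card E *
          (∑ i, (1 / 2 : ℝ) ^ (sU i) * (1 + 1 / (q : ℝ)) ^ ((TU i).card)) +
          (q : ℝ) ^ Fintype.card E * (∑ i, (1 / (q : ℝ)) ^ ((TA i).card)) +
          (q : ℝ) ^ Fintype.card E *
          (∑ i, (2 : ℝ) ^ (sL i) * (1 - 1 / (2 * (q : ℝ))) ^ ((TL i).card)) := by gcongr
      _ = (q : ℝ) ^ Fintype.card E *
          ((∑ i, 3 * (1 / 2 : ℝ) ^ (sP i) * (1 + 1 / (q : ℝ) ^ 2) ^ ((SP i).card)) +
          (∑ i, (1 / 2 : ℝ) ^ (sU i) * (1 + 1 / (q : ℝ)) ^ ((TU i).card)) +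
          (∑ i, (1 / (q : ℝ)) ^ ((TA i).card)) +
          (∑ i, (2 : ℝ) ^ (sL i) * (1 - 1 / (2 * (q : ℝ))) ^ ((TL i).card))) := by ring
      _ < (q : ℝ) ^ Fintype.card E * 1 := by
          refine mul_lt_mul_of_pos_left ?_ hN
          exact hsum
      _ = _ := mul_one _
  -- a good map
  have hex : ∃ ξ : E → Fin q, Φ ξ < 1 := by
    by_contra hno
    push Not at hno
    have h1 : ∑ _ξ : E → Fin q, (1 : ℝ) ≤ ∑ ξ : E → Fin q, Φ ξ :=
      Finset.sum_le_sum fun ξ _ => hno ξ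
    rw [Finset.sum_const, Finset.card_univ, Fintype.card_fun, Fintype.card_fin, nsmul_eq_mul,
      mul_one] at h1
    push_cast at h1
    linarith
  obtain ⟨ξ, hξ⟩ := hex
  have a1 : (0 : ℝ) ≤ ∑ i, ∑ k, (1 / 2 : ℝ) ^ (sP i) * (2 : ℝ) ^ (cP ξ i k) :=
    Finset.sum_nonneg fun i _ => Finset.sum_nonneg fun k _ => by positivity
  have a2 : (0 : ℝ) ≤ ∑ i, (1 / 2 : ℝ) ^ (sU i) * (2 : ℝ) ^ (cU ξ i) :=
    Finset.sum_nonneg fun i _ => by positivity
  have a3 : (0 : ℝ) ≤ ∑ i, (if TA i ⊆ zs hq ξ then (1 : ℝ) else 0) :=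
    Finset.sum_nonneg fun i _ => by split_ifs <;> norm_num
  have a4 : (0 : ℝ) ≤ ∑ i, (2 : ℝ) ^ (sL i) * (1 / 2 : ℝ) ^ (cL ξ i) :=
    Finset.sum_nonneg fun i _ => by positivity
  simp only [Φ] at hξ
  refine ⟨zs hq ξ, fun i => ?_, fun i => ?_, fun i => ?_, fun i => ?_⟩
  · -- pairs
    have h1 : ∀ k, cP ξ i k ≤ sP i := by
      intro k
      by_contra hlt
      push Not at hlt
      have h2 : (1 : ℝ) ≤ (1 / 2 : ℝ) ^ (sP i) * (2 : ℝ) ^ (cP ξ i k) := by
        rw [one_div, inv_pow, inv_mul_eq_div, le_div_iff₀ (by positivity), one_mul]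
        exact pow_le_pow_right₀ (by norm_num) hlt.le
      have h3 : (1 / 2 : ℝ) ^ (sP i) * (2 : ℝ) ^ (cP ξ i k) ≤
          ∑ k, (1 / 2 : ℝ) ^ (sP i) * (2 : ℝ) ^ (cP ξ i k) :=
        Finset.single_le_sum (f := fun k => (1 / 2 : ℝ) ^ (sP i) * (2 : ℝ) ^ (cP ξ i k))
          (fun _ _ => by positivity) (Finset.mem_univ k)
      have h4 : ∑ k, (1 / 2 : ℝ) ^ (sP i) * (2 : ℝ) ^ (cP ξ i k) ≤
          ∑ i, ∑ k, (1 / 2 : ℝ) ^ (sP i) * (2 : ℝ) ^ (cP ξ i k) :=
        Finset.single_le_sum (f := fun i => ∑ k, (1 / 2 : ℝ) ^ (sP i) * (2 : ℝ) ^ (cP ξ i k))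
          (fun _ _ => Finset.sum_nonneg fun _ _ => by positivity) (Finset.mem_univ i)
      linarith
    have h2 : ((SP i).filter fun e => e ∈ zs hq ξ ∧ f i e ∈ zs hq ξ).card =
        ∑ k, cP ξ i k := by
      rw [Finset.card_eq_sum_card_fiberwise (f := c i) (t := univ) (fun _ _ => by simp)]
      refine Finset.sum_congr rfl fun k _ => ?_
      simp only [cP, SC]
      congr 1
      ext e
      simp only [mem_filter]
      tauto
    have h3 : ∑ k, cP ξ i k ≤ ∑ _k : Fin 3, sP i := Finset.sum_le_sum fun k _ => h1 k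
    rw [Finset.sum_const, Finset.card_univ, Fintype.card_fin, smul_eq_mul] at h3
    omega
  · by_contra hlt
    push Not at hlt
    have h2 : (1 : ℝ) ≤ (1 / 2 : ℝ) ^ (sU i) * (2 : ℝ) ^ (cU ξ i) := by
      rw [one_div, inv_pow, inv_mul_eq_div, le_div_iff₀ (by positivity), one_mul]
      refine pow_le_pow_right₀ (by norm_num) ?_
      simp only [cU]
      omega
    have h3 : (1 / 2 : ℝ) ^ (sU i) * (2 : ℝ) ^ (cU ξ i) ≤
        ∑ i, (1 / 2 : ℝ) ^ (sU i) * (2 : ℝ) ^ (cU ξ i) :=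
      Finset.single_le_sum (f := fun i => (1 / 2 : ℝ) ^ (sU i) * (2 : ℝ) ^ (cU ξ i))
        (fun _ _ => by positivity) (Finset.mem_univ i)
    linarith
  · intro hsub
    have h3 : (if TA i ⊆ zs hq ξ then (1 : ℝ) else 0) ≤
        ∑ i, (if TA i ⊆ zs hq ξ then (1 : ℝ) else 0) :=
      Finset.single_le_sum (f := fun i => (if TA i ⊆ zs hq ξ then (1 : ℝ) else 0))
        (fun _ _ => by split_ifs <;> norm_num) (Finset.mem_univ i)
    rw [if_pos hsub] at h3
    linarith
  · by_contra hlt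
    push Not at hlt
    have h2 : (1 : ℝ) ≤ (2 : ℝ) ^ (sL i) * (1 / 2 : ℝ) ^ (cL ξ i) := by
      rw [one_div, inv_pow, ← div_eq_mul_inv, le_div_iff₀ (by positivity), one_mul]
      refine pow_le_pow_right₀ (by norm_num) ?_
      simp only [cL]
      omega
    have h3 : (2 : ℝ) ^ (sL i) * (1 / 2 : ℝ) ^ (cL ξ i) ≤
        ∑ i, (2 : ℝ) ^ (sL i) * (1 / 2 : ℝ) ^ (cL ξ i) :=
      Finset.single_le_sum (f := fun i => (2 : ℝ) ^ (sL i) * (1 / 2 : ℝ) ^ (cL ξ i))
        (fun _ _ => by positivity) (Finset.mem_univ i)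
    linarith

end Pool.Agent.R608.LU
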